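import Mathlib

/-!
# A counterexample for `G = ℤ/12` and the claw tree `K_{1,3}`

We show that for `G = ℤ/12` and `T = K_{1,3}` the ideal generated by the degree `|G|` part of the
group-based phylogenetic ideal `I(X(G,T))` does not define the same projective scheme as
`I(X(G,T))`.  The witness is the binomial `q^P - q^Q` of degree `13` given by `P0` and `Q0` below:
the fibre of `q^P` times any power of `q_r`, where `r = (9,10,5)`, has exactly two elements.
-/

open MvPolynomial

set_option autoImplicit false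

namespace Pool.Agent.Results.MP_0eda79_ag.ClawZ12

/-! ## Definitions used in the statement -/

/-- A leaf of a graph `T`: a vertex having exactly one neighbour. -/
abbrev Leaf {V : Type} (T : SimpleGraph V) : Type := {v : V // ∃! w, T.Adj v w}

open scoped Classical in
/-- The index set of the Fourier coordinates `q_g`: tuples `g = (g_ℓ)` of elements of `G` indexed by
the leaves of `T`, with `∑ g_ℓ = 0`. -/
def Coord (G : Type) [AddCommGroup G] {V : Type} [Fintype V] (T : SimpleGraph V) : Type :=
  {g : Leaf T → G // ∑ ℓ, g ℓ = 0}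

open scoped Classical in
/-- `edgeSum T e v g` is the sum of `g_ℓ` over the leaves `ℓ` that lie, after the edge `e` has been
removed from `T`, in the same component as the vertex `v`. -/
noncomputable def edgeSum {G : Type} [AddCommGroup G] {V : Type} [Fintype V] (T : SimpleGraph V)
    (e : Sym2 V) (v : V) (g : Leaf T → G) : G :=
  ∑ ℓ : Leaf T, if (T.deleteEdges {e}).Reachable v ℓ then g ℓ else 0

open scoped Classical in
/-- The parametrisation of the group-based model: `q_g = ∏_e a^e_{σ_e(g)}`.  The endpoint `side e`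
of the edge `e` says which of the two parts of the set of leaves is `L_e`, and
`σ_e(g) = ∑_{ℓ ∈ L_e} g_ℓ = edgeSum T e (side e) g`. -/
noncomputable def paramPoint {G : Type} [AddCommGroup G] {V : Type} [Fintype V]
    (T : SimpleGraph V) (side : T.edgeSet → V) (a : T.edgeSet → G → ℂ) : Coord G T → ℂ :=
  fun g => ∏ e : T.edgeSet, a e (edgeSum T e (side e) g.1)

/-- The homogeneous vanishing ideal of a set `Z` of points of projective space (given by their
coordinate vectors; the zero vector is no point), which is that of its Zariski closure: the ideal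
generated by all homogeneous polynomials that vanish on `Z`. -/
noncomputable def homVanIdeal {ι : Type} (Z : Set (ι → ℂ)) : Ideal (MvPolynomial ι ℂ) :=
  Ideal.span {F | (∃ d, F.IsHomogeneous d) ∧ ∀ z ∈ Z, z ≠ 0 → eval z F = 0}

/-- `I(X(G,T))`: the homogeneous vanishing ideal of the Zariski closure of the image of the
parametrisation. -/
noncomputable def modelIdeal (G : Type) [AddCommGroup G] {V : Type} [Fintype V] (T : SimpleGraph V)
    (side : T.edgeSet → V) : Ideal (MvPolynomial (Coord G T) ℂ) :=
  homVanIdeal (Set.range (paramPoint (G := G) T side))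

/-- `I_⟨d⟩`: the ideal generated by the homogeneous elements of `I` of degree exactly `d`. -/
noncomputable def genIdeal {ι : Type} (I : Ideal (MvPolynomial ι ℂ)) (d : ℕ) :
    Ideal (MvPolynomial ι ℂ) :=
  Ideal.span {F | F ∈ I ∧ F.IsHomogeneous d}

/-- The irrelevant ideal `𝔪`, generated by all variables. -/
noncomputable def irrelevant (ι : Type) : Ideal (MvPolynomial ι ℂ) := Ideal.span (Set.range X)

/-- The saturation `(J : 𝔪^∞)`: all `F` such that `𝔪^k F ⊆ J` for some `k`. -/
noncomputable def saturation {ι : Type} (J : Ideal (MvPolynomial ι ℂ)) :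
    Ideal (MvPolynomial ι ℂ) where
  carrier := {F | ∃ k : ℕ, ∀ h ∈ irrelevant ι ^ k, h * F ∈ J}
  add_mem' := by
    rintro a b ⟨k, hk⟩ ⟨l, hl⟩
    refine ⟨k + l, fun h hh => ?_⟩
    rw [mul_add]
    exact J.add_mem (hk h (Ideal.pow_le_pow_right (Nat.le_add_right k l) hh))
      (hl h (Ideal.pow_le_pow_right (Nat.le_add_left l k) hh))
  zero_mem' := ⟨0, fun h _ => by simp⟩
  smul_mem' := by
    rintro c x ⟨k, hk⟩
    refine ⟨k, fun h hh => ?_⟩
    rw [smul_eq_mul, mul_left_comm]
    exact J.mul_mem_left _ (hk h hh)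

/-! ## Toric ideals: the abstract argument -/

section Abstract

variable {ι E G : Type} [Fintype E]

/-- The algebra map `X i ↦ ∏ e, X (e, s e i)`. -/
noncomputable def monMap (s : E → ι → G) : MvPolynomial ι ℂ →ₐ[ℂ] MvPolynomial (E × G) ℂ :=
  aeval (fun i => ∏ e, X (e, s e i))

/-- The exponent vector of the image monomial. -/
noncomputable def cont (s : E → ι → G) : (ι →₀ ℕ) →+ ((E × G) →₀ ℕ) :=
  Finsupp.liftAddHom fun i => (multiplesHom _ (∑ e, Finsupp.single (e, s e i) 1 : (E × G) →₀ ℕ))

lemma cont_single (s : E → ι → G) (i : ι) (k : ℕ) :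
    cont s (Finsupp.single i k) = k • ∑ e, Finsupp.single (e, s e i) 1 := by
  simp [cont]

lemma monMap_X (s : E → ι → G) (i : ι) :
    monMap s (X i) = monomial (∑ e, Finsupp.single (e, s e i) 1 : (E × G) →₀ ℕ) 1 := by
  classical
  simp only [monMap, aeval_X]
  rw [monomial_sum_one]
  rfl

lemma monMap_monomial (s : E → ι → G) (M : ι →₀ ℕ) (c : ℂ) :
    monMap s (monomial M c) = monomial (cont s M) c := by
  classical
  induction M using Finsupp.induction_linear generalizing c with
  | zero => simp [monMap]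
  | add f g hf hg =>
    have : (monomial (f + g) c : MvPolynomial ι ℂ) = monomial f c * monomial g 1 := by
      rw [monomial_mul, mul_one]
    rw [this, map_mul, hf, hg, monomial_mul, mul_one, map_add]
  | single i k =>
    have : (monomial (Finsupp.single i k) c : MvPolynomial ι ℂ) = C c * X i ^ k := by
      rw [C_mul_X_pow_eq_monomial]
    rw [this, map_mul, map_pow, monMap_X, monomial_pow, one_pow, cont_single]
    have : monMap s (C c) = C c := by simp [monMap]
    rw [this, C_mul_monomial, mul_one]

/-- the parametrised point -/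
def pt (s : E → ι → G) (a : E → G → ℂ) : ι → ℂ := fun i => ∏ e, a e (s e i)

lemma eval_pt (s : E → ι → G) (a : E → G → ℂ) (F : MvPolynomial ι ℂ) :
    eval (pt s a) F = eval (fun p : E × G => a p.1 p.2) (monMap s F) := by
  have : (eval (pt s a) : MvPolynomial ι ℂ →+* ℂ) =
      (eval (fun p : E × G => a p.1 p.2)).comp (monMap s : MvPolynomial ι ℂ →+* _) := by
    apply MvPolynomial.ringHom_ext
    · intro r; simp [monMap]
    · intro i; simp [monMap, pt]
  rw [this]; rfl

lemma monMap_eq_zero_iff (s : E → ι → G) (F : MvPolynomial ι ℂ) :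
    monMap s F = 0 ↔ ∀ a, eval (pt s a) F = 0 := by
  constructor
  · intro h a; rw [eval_pt, h, map_zero]
  · intro h
    apply MvPolynomial.funext
    intro x
    have := h (fun e g => x (e, g))
    rw [eval_pt] at this
    rw [map_zero]
    exact this

lemma monMap_X_ne_zero (s : E → ι → G) (i : ι) : monMap s (X i) ≠ 0 := by
  rw [monMap_X]; simp

lemma monMap_eq_zero_of (s : E → ι → G) (i : ι) (F : MvPolynomial ι ℂ)
    (h : ∀ a, pt s a ≠ 0 → eval (pt s a) F = 0) : monMap s F = 0 := by
  have h1 : monMap s (X i * F) = 0 := by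
    rw [monMap_eq_zero_iff]
    intro a
    by_cases ha : pt s a = 0
    · simp [ha]
    · simp [h a ha]
  rw [map_mul] at h1
  exact (mul_eq_zero.mp h1).resolve_left (monMap_X_ne_zero s i)

lemma coeff_eq_zero (s : E → ι → G) (F : MvPolynomial ι ℂ) (hF : monMap s F = 0)
    (m₀ : ι →₀ ℕ) (hm : ∀ m, cont s m = cont s m₀ → m = m₀) : coeff m₀ F = 0 := by
  classical
  have h1 : coeff (cont s m₀) (monMap s F) = 0 := by rw [hF]; simp
  rw [F.as_sum, map_sum, coeff_sum] at h1
  simp only [monMap_monomial, coeff_monomial] at h1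
  by_cases h0 : m₀ ∈ F.support
  · rw [Finset.sum_eq_single m₀] at h1
    · simpa using h1
    · intro b _ hb
      rw [if_neg]
      intro h
      exact hb (hm b h)
    · intro h; exact absurd h0 h
  · simpa using h0

/-- homogeneous components -/
lemma monMap_isHomogeneous (s : E → ι → G) (F : MvPolynomial ι ℂ) (d : ℕ) (hF : F.IsHomogeneous d) :
    (monMap s F).IsHomogeneous (Fintype.card E * d) := by
  classical
  rw [F.as_sum, map_sum]
  apply IsHomogeneous.sum
  intro m hm
  have hd : m.degree = d := by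
    have := hF (mem_support_iff.mp hm)
    rw [Finsupp.degree_eq_weight_one]
    exact this
  have : monomial m (coeff m F) = C (coeff m F) * ∏ i ∈ m.support, X i ^ m i := by
    rw [monomial_eq]; rfl
  rw [this, map_mul, map_prod]
  have h2 : (monMap s (C (coeff m F))).IsHomogeneous 0 := by
    have : monMap s (C (coeff m F)) = C (coeff m F) := by simp [monMap]
    rw [this]; exact isHomogeneous_C _ _
  have h3 : (∏ i ∈ m.support, (monMap s (X i ^ m i))).IsHomogeneous (∑ i ∈ m.support, Fintype.card E * m i) := by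
    apply IsHomogeneous.prod
    intro i _
    rw [map_pow]
    apply IsHomogeneous.pow
    simp only [monMap, aeval_X]
    have := IsHomogeneous.prod (Finset.univ : Finset E) (fun e => (X (e, s e i) : MvPolynomial (E × G) ℂ)) (fun _ => 1)
      (fun e _ => isHomogeneous_X _ _)
    simpa using this
  have h4 := h2.mul h3
  rw [zero_add, ← Finset.mul_sum] at h4
  have : ∑ i ∈ m.support, m i = d := by rw [← hd]; rfl
  rw [this] at h4
  exact h4

lemma monMap_homogeneousComponent (s : E → ι → G) [Nonempty E] (F : MvPolynomial ι ℂ)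
    (hF : monMap s F = 0) (d : ℕ) : monMap s (homogeneousComponent d F) = 0 := by
  classical
  have h0 : monMap s F = ∑ i ∈ Finset.range (F.totalDegree + 1), monMap s (homogeneousComponent i F) := by
    conv_lhs => rw [← sum_homogeneousComponent F]
    rw [map_sum]
  by_cases hd : d ∈ Finset.range (F.totalDegree + 1)
  · have h1 := congrArg (homogeneousComponent (Fintype.card E * d)) h0
    rw [hF, map_zero, map_sum, Finset.sum_eq_single d] at h1
    · have h2 := monMap_isHomogeneous s _ d (homogeneousComponent_isHomogeneous d F)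
      rw [homogeneousComponent_of_mem h2, if_pos rfl] at h1
      exact h1.symm
    · intro b _ hb
      have h2 := monMap_isHomogeneous s _ b (homogeneousComponent_isHomogeneous b F)
      rw [homogeneousComponent_of_mem h2, if_neg]
      intro h
      exact hb (Nat.eq_of_mul_eq_mul_left Fintype.card_pos h).symm
    · intro h; exact absurd hd h
  · rw [homogeneousComponent_eq_zero, map_zero]
    simp at hd; omega


lemma homVanIdeal_eq_ker (s : E → ι → G) [Nonempty E] [Nonempty ι] :
    homVanIdeal (Set.range (pt s)) = RingHom.ker (monMap s) := by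
  classical
  obtain ⟨i⟩ := ‹Nonempty ι›
  apply le_antisymm
  · rw [homVanIdeal, Ideal.span_le]
    rintro F ⟨_, hF⟩
    exact monMap_eq_zero_of s i F (fun a ha => hF _ ⟨a, rfl⟩ ha)
  · intro F hF
    rw [RingHom.mem_ker] at hF
    rw [← sum_homogeneousComponent F]
    apply Ideal.sum_mem
    intro d _
    apply Ideal.subset_span
    refine ⟨⟨d, homogeneousComponent_isHomogeneous d F⟩, ?_⟩
    rintro z ⟨a, rfl⟩ _
    exact (monMap_eq_zero_iff s _).mp (monMap_homogeneousComponent s F hF d) a

theorem abstract_core [Fintype ι] (s : E → ι → G) [Nonempty E] (P Q : ι →₀ ℕ) (r : ι) (N : ℕ)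
    (hcont : cont s P = cont s Q) (hN : N < P.degree)
    (hdisj : ∀ i, P i = 0 ∨ Q i = 0)
    (hfib : ∀ (K : ℕ) (M : ι →₀ ℕ), cont s M = cont s (P + Finsupp.single r K) →
      M = P + Finsupp.single r K ∨ M = Q + Finsupp.single r K) :
    saturation (genIdeal (homVanIdeal (Set.range (pt s))) N) < homVanIdeal (Set.range (pt s)) := by
  classical
  have : Nonempty ι := ⟨r⟩
  rw [homVanIdeal_eq_ker]
  have hPQ : P ≠ Q := by
    intro h
    have : P = 0 := by
      ext i
      rcases hdisj i with h1 | h1
      · simpa using h1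
      · rw [h]; simpa using h1
    rw [this] at hN
    simp at hN
  -- key: coefficients of elements of genIdeal
  have key2 : ∀ (K : ℕ) (g : MvPolynomial ι ℂ), g ∈ RingHom.ker (monMap s) → g.IsHomogeneous N →
      ∀ m c : ι →₀ ℕ, c + m = P + Finsupp.single r K → coeff m g = 0 := by
    intro K g hg hgh m c hcm
    by_cases hmN : m.degree = N
    · apply coeff_eq_zero s g hg m
      intro m' hm'
      have h1 : cont s (c + m') = cont s (P + Finsupp.single r K) := by
        rw [← hcm, map_add, map_add, hm']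
      rcases hfib K _ h1 with h2 | h2
      · rw [← hcm] at h2
        exact add_left_cancel h2
      · exfalso
        -- c ≤ K r
        have hc : ∀ i, c i ≤ Finsupp.single r K i := by
          intro i
          have e1 : c i + m i = P i + Finsupp.single r K i := by
            rw [← Finsupp.add_apply, ← Finsupp.add_apply, hcm]
          have e2 : c i + m' i = Q i + Finsupp.single r K i := by
            rw [← Finsupp.add_apply, ← Finsupp.add_apply, h2]
          rcases hdisj i with h3 | h3 <;> omega
        have hcd : c.degree ≤ (Finsupp.single r K).degree := by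
          obtain ⟨c', hc'⟩ : ∃ c', Finsupp.single r K = c + c' :=
            ⟨Finsupp.single r K - c, (add_tsub_cancel_of_le (fun i => hc i)).symm⟩
          rw [hc', map_add]; omega
        have e3 : c.degree + m.degree = P.degree + (Finsupp.single r K).degree := by
          rw [← map_add, ← map_add, hcm]
        omega
    · by_contra hne
      apply hmN
      have := hgh hne
      rw [Finsupp.degree_eq_weight_one]
      exact this
  have key : ∀ (K : ℕ) (F : MvPolynomial ι ℂ), F ∈ genIdeal (RingHom.ker (monMap s)) N →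
      ∀ m c : ι →₀ ℕ, c + m = P + Finsupp.single r K → coeff m F = 0 := by
    intro K F hF
    rw [genIdeal] at hF
    induction hF using Submodule.span_induction with
    | mem x hx =>
      exact key2 K x hx.1 hx.2
    | zero => intro m c _; simp
    | add x y _ _ hx hy =>
      intro m c hmc
      rw [coeff_add, hx m c hmc, hy m c hmc, add_zero]
    | smul a x hx' hx =>
      intro m c hmc
      rw [smul_eq_mul, coeff_mul]
      apply Finset.sum_eq_zero
      rintro ⟨u, v⟩ huv
      have huv := Finset.HasAntidiagonal.mem_antidiagonal.mp huv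
      simp only at huv
      rw [hx v (c + u) (by rw [add_assoc, huv, hmc]), mul_zero]
  have hsub : genIdeal (RingHom.ker (monMap s)) N ≤ RingHom.ker (monMap s) := by
    rw [genIdeal, Ideal.span_le]
    exact fun F hF => hF.1
  rw [lt_iff_le_and_ne]
  constructor
  · rintro F ⟨k, hk⟩
    have h1 := hsub (hk (X r ^ k) (Ideal.pow_mem_pow (Ideal.subset_span (Set.mem_range_self r)) k))
    rw [RingHom.mem_ker, map_mul, map_pow] at h1
    rw [RingHom.mem_ker]
    exact (mul_eq_zero.mp h1).resolve_left (pow_ne_zero _ (monMap_X_ne_zero s r))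
  · intro heq
    have hf : (monomial P 1 - monomial Q 1 : MvPolynomial ι ℂ) ∈ RingHom.ker (monMap s) := by
      rw [RingHom.mem_ker, map_sub, monMap_monomial, monMap_monomial, hcont, sub_self]
    rw [← heq] at hf
    obtain ⟨k, hk⟩ := hf
    have h1 := hk (X r ^ k) (Ideal.pow_mem_pow (Ideal.subset_span (Set.mem_range_self r)) k)
    have h2 := key k _ h1 (P + Finsupp.single r k) 0 (by simp)
    rw [add_comm, X_pow_eq_monomial, coeff_monomial_mul, coeff_sub, coeff_monomial, coeff_monomial,
      if_pos rfl, if_neg hPQ.symm] at h2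
    simp at h2

end Abstract

/-! ## The finite computation

A row `(x, y, z)` with `x + y + z = 0` in `ℤ/12` is given by the pair `(x, y)`. -/

/-- The exponents of the first monomial, of degree `13`. -/
def P0 (p : ZMod 12 × ZMod 12) : ℕ :=
  if p = (0, 11) then 1 else if p = (1, 0) then 2 else if p = (4, 10) then 2 else
  if p = (6, 5) then 3 else if p = (9, 8) then 2 else if p = (10, 9) then 1 else
  if p = (11, 3) then 2 else 0

/-- The exponents of the second monomial, of degree `13`. -/
def Q0 (p : ZMod 12 × ZMod 12) : ℕ :=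
  if p = (0, 5) then 1 else if p = (1, 10) then 2 else if p = (4, 3) then 1 else
  if p = (4, 9) then 1 else if p = (6, 8) then 2 else if p = (6, 11) then 1 else
  if p = (9, 5) then 2 else if p = (10, 3) then 1 else if p = (11, 0) then 2 else 0

/-- All rows that can occur in the fibre. -/
def H : Finset (ZMod 12 × ZMod 12) :=
  {(0, 5), (0, 11), (1, 0), (1, 10), (4, 3), (4, 9), (4, 10), (6, 5), (6, 8), (6, 11),
   (9, 5), (9, 8), (9, 10), (10, 3), (10, 9), (11, 0), (11, 3), (11, 8)}

/-- The entries of the row given by `p`. -/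
def w (k : Fin 3) (p : ZMod 12 × ZMod 12) : ZMod 12 :=
  if k = 0 then p.1 else if k = 1 then p.2 else -(p.1 + p.2)

lemma zero_off_H (m : ZMod 12 × ZMod 12 → ℕ) (K : ℕ)
    (h : ∀ k c, ∑ p, (if w k p = c then m p else 0) =
      ∑ p, (if w k p = c then P0 p + (if p = (9, 10) then K else 0) else 0)) :
    ∀ p, p ∉ H → m p = 0 := by
  intro p hp
  have h1 : ∀ p, p ∉ H → ∃ k, ∀ q, w k q = w k p → P0 q = 0 ∧ q ≠ (9, 10) := by decide +kernel
  obtain ⟨k, hk⟩ := h1 p hp
  have h2 : ∑ q, (if w k q = w k p then P0 q + (if q = (9, 10) then K else 0) else 0) = 0 := by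
    apply Finset.sum_eq_zero
    intro q _
    split_ifs with h3 h4
    · exact absurd h4 (hk q h3).2
    · simp [(hk q h3).1]
    · rfl
  have h5 := h k (w k p)
  rw [h2, Finset.sum_eq_zero_iff] at h5
  have := h5 p (Finset.mem_univ _)
  simpa using this

lemma sum_H (m : ZMod 12 × ZMod 12 → ℕ) (hm : ∀ p, p ∉ H → m p = 0) (k : Fin 3) (c : ZMod 12) :
    ∑ p, (if w k p = c then m p else 0) = ∑ p ∈ H.filter (fun p => w k p = c), m p := by
  rw [Finset.sum_filter]
  symm
  apply Finset.sum_subset (Finset.subset_univ _)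
  intro x _ hx
  simp [hm x hx]

set_option maxHeartbeats 4000000 in
lemma fiber_core (m : ZMod 12 × ZMod 12 → ℕ) (K : ℕ)
    (h : ∀ k c, ∑ p, (if w k p = c then m p else 0) =
      ∑ p, (if w k p = c then P0 p + (if p = (9, 10) then K else 0) else 0)) :
    (∀ p, m p = P0 p + (if p = (9, 10) then K else 0)) ∨
    (∀ p, m p = Q0 p + (if p = (9, 10) then K else 0)) := by
  have hm := zero_off_H m K h
  have hP : ∀ p, p ∉ H → P0 p = 0 ∧ Q0 p = 0 ∧ p ≠ (9, 10) := by decide +kernel
  have key : ∀ k c, ∑ p ∈ H.filter (fun p => w k p = c), m p =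
      ∑ p ∈ H.filter (fun p => w k p = c), (P0 p + (if p = (9, 10) then K else 0)) := by
    intro k c
    rw [← sum_H m hm, h, ← sum_H _ (fun p hp => by simp [(hP p hp).1, (hP p hp).2.2])]
  have e0_0 : m (0, 5) + m (0, 11) = 1 := by
    have h0 := key 0 0
    rw [show H.filter (fun p => w 0 p = 0) = {(0, 5), (0, 11)} by decide +kernel] at h0
    rw [Finset.sum_insert (by decide), Finset.sum_singleton, Finset.sum_insert (by decide), Finset.sum_singleton] at h0
    rw [show P0 (0, 5) = 0 by decide] at h0
    rw [show P0 (0, 11) = 1 by decide] at h0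
    rw [if_neg (show ¬ (((0, 5) : ZMod 12 × ZMod 12) = (9, 10)) by decide)] at h0
    rw [if_neg (show ¬ (((0, 11) : ZMod 12 × ZMod 12) = (9, 10)) by decide)] at h0
    omega
  have e0_1 : m (1, 0) + m (1, 10) = 2 := by
    have h0 := key 0 1
    rw [show H.filter (fun p => w 0 p = 1) = {(1, 0), (1, 10)} by decide +kernel] at h0
    rw [Finset.sum_insert (by decide), Finset.sum_singleton, Finset.sum_insert (by decide), Finset.sum_singleton] at h0
    rw [show P0 (1, 0) = 2 by decide] at h0
    rw [show P0 (1, 10) = 0 by decide] at h0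
    rw [if_neg (show ¬ (((1, 0) : ZMod 12 × ZMod 12) = (9, 10)) by decide)] at h0
    rw [if_neg (show ¬ (((1, 10) : ZMod 12 × ZMod 12) = (9, 10)) by decide)] at h0
    omega
  have e0_4 : m (4, 3) + m (4, 9) + m (4, 10) = 2 := by
    have h0 := key 0 4
    rw [show H.filter (fun p => w 0 p = 4) = {(4, 3), (4, 9), (4, 10)} by decide +kernel] at h0
    rw [Finset.sum_insert (by decide), Finset.sum_insert (by decide), Finset.sum_singleton, Finset.sum_insert (by decide), Finset.sum_insert (by decide), Finset.sum_singleton] at h0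
    rw [show P0 (4, 3) = 0 by decide] at h0
    rw [show P0 (4, 9) = 0 by decide] at h0
    rw [show P0 (4, 10) = 2 by decide] at h0
    rw [if_neg (show ¬ (((4, 3) : ZMod 12 × ZMod 12) = (9, 10)) by decide)] at h0
    rw [if_neg (show ¬ (((4, 9) : ZMod 12 × ZMod 12) = (9, 10)) by decide)] at h0
    rw [if_neg (show ¬ (((4, 10) : ZMod 12 × ZMod 12) = (9, 10)) by decide)] at h0
    omega
  have e0_6 : m (6, 5) + m (6, 8) + m (6, 11) = 3 := by
    have h0 := key 0 6
    rw [show H.filter (fun p => w 0 p = 6) = {(6, 5), (6, 8), (6, 11)} by decide +kernel] at h0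
    rw [Finset.sum_insert (by decide), Finset.sum_insert (by decide), Finset.sum_singleton, Finset.sum_insert (by decide), Finset.sum_insert (by decide), Finset.sum_singleton] at h0
    rw [show P0 (6, 5) = 3 by decide] at h0
    rw [show P0 (6, 8) = 0 by decide] at h0
    rw [show P0 (6, 11) = 0 by decide] at h0
    rw [if_neg (show ¬ (((6, 5) : ZMod 12 × ZMod 12) = (9, 10)) by decide)] at h0
    rw [if_neg (show ¬ (((6, 8) : ZMod 12 × ZMod 12) = (9, 10)) by decide)] at h0
    rw [if_neg (show ¬ (((6, 11) : ZMod 12 × ZMod 12) = (9, 10)) by decide)] at h0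
    omega
  have e0_9 : m (9, 5) + m (9, 8) + m (9, 10) = 2 + K := by
    have h0 := key 0 9
    rw [show H.filter (fun p => w 0 p = 9) = {(9, 5), (9, 8), (9, 10)} by decide +kernel] at h0
    rw [Finset.sum_insert (by decide), Finset.sum_insert (by decide), Finset.sum_singleton, Finset.sum_insert (by decide), Finset.sum_insert (by decide), Finset.sum_singleton] at h0
    rw [show P0 (9, 5) = 0 by decide] at h0
    rw [show P0 (9, 8) = 2 by decide] at h0
    rw [show P0 (9, 10) = 0 by decide] at h0
    rw [if_neg (show ¬ (((9, 5) : ZMod 12 × ZMod 12) = (9, 10)) by decide)] at h0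
    rw [if_neg (show ¬ (((9, 8) : ZMod 12 × ZMod 12) = (9, 10)) by decide)] at h0
    rw [if_pos (rfl : (((9, 10) : ZMod 12 × ZMod 12)) = (9, 10))] at h0
    omega
  have e0_10 : m (10, 3) + m (10, 9) = 1 := by
    have h0 := key 0 10
    rw [show H.filter (fun p => w 0 p = 10) = {(10, 3), (10, 9)} by decide +kernel] at h0
    rw [Finset.sum_insert (by decide), Finset.sum_singleton, Finset.sum_insert (by decide), Finset.sum_singleton] at h0
    rw [show P0 (10, 3) = 0 by decide] at h0
    rw [show P0 (10, 9) = 1 by decide] at h0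
    rw [if_neg (show ¬ (((10, 3) : ZMod 12 × ZMod 12) = (9, 10)) by decide)] at h0
    rw [if_neg (show ¬ (((10, 9) : ZMod 12 × ZMod 12) = (9, 10)) by decide)] at h0
    omega
  have e0_11 : m (11, 0) + m (11, 3) + m (11, 8) = 2 := by
    have h0 := key 0 11
    rw [show H.filter (fun p => w 0 p = 11) = {(11, 0), (11, 3), (11, 8)} by decide +kernel] at h0
    rw [Finset.sum_insert (by decide), Finset.sum_insert (by decide), Finset.sum_singleton, Finset.sum_insert (by decide), Finset.sum_insert (by decide), Finset.sum_singleton] at h0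
    rw [show P0 (11, 0) = 0 by decide] at h0
    rw [show P0 (11, 3) = 2 by decide] at h0
    rw [show P0 (11, 8) = 0 by decide] at h0
    rw [if_neg (show ¬ (((11, 0) : ZMod 12 × ZMod 12) = (9, 10)) by decide)] at h0
    rw [if_neg (show ¬ (((11, 3) : ZMod 12 × ZMod 12) = (9, 10)) by decide)] at h0
    rw [if_neg (show ¬ (((11, 8) : ZMod 12 × ZMod 12) = (9, 10)) by decide)] at h0
    omega
  have e1_0 : m (1, 0) + m (11, 0) = 2 := by
    have h0 := key 1 0
    rw [show H.filter (fun p => w 1 p = 0) = {(1, 0), (11, 0)} by decide +kernel] at h0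
    rw [Finset.sum_insert (by decide), Finset.sum_singleton, Finset.sum_insert (by decide), Finset.sum_singleton] at h0
    rw [show P0 (1, 0) = 2 by decide] at h0
    rw [show P0 (11, 0) = 0 by decide] at h0
    rw [if_neg (show ¬ (((1, 0) : ZMod 12 × ZMod 12) = (9, 10)) by decide)] at h0
    rw [if_neg (show ¬ (((11, 0) : ZMod 12 × ZMod 12) = (9, 10)) by decide)] at h0
    omega
  have e1_3 : m (4, 3) + m (10, 3) + m (11, 3) = 2 := by
    have h0 := key 1 3
    rw [show H.filter (fun p => w 1 p = 3) = {(4, 3), (10, 3), (11, 3)} by decide +kernel] at h0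
    rw [Finset.sum_insert (by decide), Finset.sum_insert (by decide), Finset.sum_singleton, Finset.sum_insert (by decide), Finset.sum_insert (by decide), Finset.sum_singleton] at h0
    rw [show P0 (4, 3) = 0 by decide] at h0
    rw [show P0 (10, 3) = 0 by decide] at h0
    rw [show P0 (11, 3) = 2 by decide] at h0
    rw [if_neg (show ¬ (((4, 3) : ZMod 12 × ZMod 12) = (9, 10)) by decide)] at h0
    rw [if_neg (show ¬ (((10, 3) : ZMod 12 × ZMod 12) = (9, 10)) by decide)] at h0
    rw [if_neg (show ¬ (((11, 3) : ZMod 12 × ZMod 12) = (9, 10)) by decide)] at h0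
    omega
  have e1_5 : m (0, 5) + m (6, 5) + m (9, 5) = 3 := by
    have h0 := key 1 5
    rw [show H.filter (fun p => w 1 p = 5) = {(0, 5), (6, 5), (9, 5)} by decide +kernel] at h0
    rw [Finset.sum_insert (by decide), Finset.sum_insert (by decide), Finset.sum_singleton, Finset.sum_insert (by decide), Finset.sum_insert (by decide), Finset.sum_singleton] at h0
    rw [show P0 (0, 5) = 0 by decide] at h0
    rw [show P0 (6, 5) = 3 by decide] at h0
    rw [show P0 (9, 5) = 0 by decide] at h0
    rw [if_neg (show ¬ (((0, 5) : ZMod 12 × ZMod 12) = (9, 10)) by decide)] at h0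
    rw [if_neg (show ¬ (((6, 5) : ZMod 12 × ZMod 12) = (9, 10)) by decide)] at h0
    rw [if_neg (show ¬ (((9, 5) : ZMod 12 × ZMod 12) = (9, 10)) by decide)] at h0
    omega
  have e1_8 : m (6, 8) + m (9, 8) + m (11, 8) = 2 := by
    have h0 := key 1 8
    rw [show H.filter (fun p => w 1 p = 8) = {(6, 8), (9, 8), (11, 8)} by decide +kernel] at h0
    rw [Finset.sum_insert (by decide), Finset.sum_insert (by decide), Finset.sum_singleton, Finset.sum_insert (by decide), Finset.sum_insert (by decide), Finset.sum_singleton] at h0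
    rw [show P0 (6, 8) = 0 by decide] at h0
    rw [show P0 (9, 8) = 2 by decide] at h0
    rw [show P0 (11, 8) = 0 by decide] at h0
    rw [if_neg (show ¬ (((6, 8) : ZMod 12 × ZMod 12) = (9, 10)) by decide)] at h0
    rw [if_neg (show ¬ (((9, 8) : ZMod 12 × ZMod 12) = (9, 10)) by decide)] at h0
    rw [if_neg (show ¬ (((11, 8) : ZMod 12 × ZMod 12) = (9, 10)) by decide)] at h0
    omega
  have e1_9 : m (4, 9) + m (10, 9) = 1 := by
    have h0 := key 1 9
    rw [show H.filter (fun p => w 1 p = 9) = {(4, 9), (10, 9)} by decide +kernel] at h0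
    rw [Finset.sum_insert (by decide), Finset.sum_singleton, Finset.sum_insert (by decide), Finset.sum_singleton] at h0
    rw [show P0 (4, 9) = 0 by decide] at h0
    rw [show P0 (10, 9) = 1 by decide] at h0
    rw [if_neg (show ¬ (((4, 9) : ZMod 12 × ZMod 12) = (9, 10)) by decide)] at h0
    rw [if_neg (show ¬ (((10, 9) : ZMod 12 × ZMod 12) = (9, 10)) by decide)] at h0
    omega
  have e1_10 : m (1, 10) + m (4, 10) + m (9, 10) = 2 + K := by
    have h0 := key 1 10
    rw [show H.filter (fun p => w 1 p = 10) = {(1, 10), (4, 10), (9, 10)} by decide +kernel] at h0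
    rw [Finset.sum_insert (by decide), Finset.sum_insert (by decide), Finset.sum_singleton, Finset.sum_insert (by decide), Finset.sum_insert (by decide), Finset.sum_singleton] at h0
    rw [show P0 (1, 10) = 0 by decide] at h0
    rw [show P0 (4, 10) = 2 by decide] at h0
    rw [show P0 (9, 10) = 0 by decide] at h0
    rw [if_neg (show ¬ (((1, 10) : ZMod 12 × ZMod 12) = (9, 10)) by decide)] at h0
    rw [if_neg (show ¬ (((4, 10) : ZMod 12 × ZMod 12) = (9, 10)) by decide)] at h0
    rw [if_pos (rfl : (((9, 10) : ZMod 12 × ZMod 12)) = (9, 10))] at h0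
    omega
  have e1_11 : m (0, 11) + m (6, 11) = 1 := by
    have h0 := key 1 11
    rw [show H.filter (fun p => w 1 p = 11) = {(0, 11), (6, 11)} by decide +kernel] at h0
    rw [Finset.sum_insert (by decide), Finset.sum_singleton, Finset.sum_insert (by decide), Finset.sum_singleton] at h0
    rw [show P0 (0, 11) = 1 by decide] at h0
    rw [show P0 (6, 11) = 0 by decide] at h0
    rw [if_neg (show ¬ (((0, 11) : ZMod 12 × ZMod 12) = (9, 10)) by decide)] at h0
    rw [if_neg (show ¬ (((6, 11) : ZMod 12 × ZMod 12) = (9, 10)) by decide)] at h0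
    omega
  have e2_1 : m (0, 11) + m (1, 10) + m (6, 5) + m (11, 0) = 4 := by
    have h0 := key 2 1
    rw [show H.filter (fun p => w 2 p = 1) = {(0, 11), (1, 10), (6, 5), (11, 0)} by decide +kernel] at h0
    rw [Finset.sum_insert (by decide), Finset.sum_insert (by decide), Finset.sum_insert (by decide), Finset.sum_singleton, Finset.sum_insert (by decide), Finset.sum_insert (by decide), Finset.sum_insert (by decide), Finset.sum_singleton] at h0
    rw [show P0 (0, 11) = 1 by decide] at h0
    rw [show P0 (1, 10) = 0 by decide] at h0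
    rw [show P0 (6, 5) = 3 by decide] at h0
    rw [show P0 (11, 0) = 0 by decide] at h0
    rw [if_neg (show ¬ (((0, 11) : ZMod 12 × ZMod 12) = (9, 10)) by decide)] at h0
    rw [if_neg (show ¬ (((1, 10) : ZMod 12 × ZMod 12) = (9, 10)) by decide)] at h0
    rw [if_neg (show ¬ (((6, 5) : ZMod 12 × ZMod 12) = (9, 10)) by decide)] at h0
    rw [if_neg (show ¬ (((11, 0) : ZMod 12 × ZMod 12) = (9, 10)) by decide)] at h0
    omega
  have e2_5 : m (4, 3) + m (9, 10) + m (10, 9) + m (11, 8) = 1 + K := by
    have h0 := key 2 5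
    rw [show H.filter (fun p => w 2 p = 5) = {(4, 3), (9, 10), (10, 9), (11, 8)} by decide +kernel] at h0
    rw [Finset.sum_insert (by decide), Finset.sum_insert (by decide), Finset.sum_insert (by decide), Finset.sum_singleton, Finset.sum_insert (by decide), Finset.sum_insert (by decide), Finset.sum_insert (by decide), Finset.sum_singleton] at h0
    rw [show P0 (4, 3) = 0 by decide] at h0
    rw [show P0 (9, 10) = 0 by decide] at h0
    rw [show P0 (10, 9) = 1 by decide] at h0
    rw [show P0 (11, 8) = 0 by decide] at h0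
    rw [if_neg (show ¬ (((4, 3) : ZMod 12 × ZMod 12) = (9, 10)) by decide)] at h0
    rw [if_pos (rfl : (((9, 10) : ZMod 12 × ZMod 12)) = (9, 10))] at h0
    rw [if_neg (show ¬ (((10, 9) : ZMod 12 × ZMod 12) = (9, 10)) by decide)] at h0
    rw [if_neg (show ¬ (((11, 8) : ZMod 12 × ZMod 12) = (9, 10)) by decide)] at h0
    omega
  have e2_7 : m (0, 5) + m (6, 11) + m (9, 8) = 2 := by
    have h0 := key 2 7
    rw [show H.filter (fun p => w 2 p = 7) = {(0, 5), (6, 11), (9, 8)} by decide +kernel] at h0
    rw [Finset.sum_insert (by decide), Finset.sum_insert (by decide), Finset.sum_singleton, Finset.sum_insert (by decide), Finset.sum_insert (by decide), Finset.sum_singleton] at h0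
    rw [show P0 (0, 5) = 0 by decide] at h0
    rw [show P0 (6, 11) = 0 by decide] at h0
    rw [show P0 (9, 8) = 2 by decide] at h0
    rw [if_neg (show ¬ (((0, 5) : ZMod 12 × ZMod 12) = (9, 10)) by decide)] at h0
    rw [if_neg (show ¬ (((6, 11) : ZMod 12 × ZMod 12) = (9, 10)) by decide)] at h0
    rw [if_neg (show ¬ (((9, 8) : ZMod 12 × ZMod 12) = (9, 10)) by decide)] at h0
    omega
  have e2_10 : m (4, 10) + m (6, 8) + m (9, 5) + m (11, 3) = 4 := by
    have h0 := key 2 10
    rw [show H.filter (fun p => w 2 p = 10) = {(4, 10), (6, 8), (9, 5), (11, 3)} by decide +kernel] at h0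
    rw [Finset.sum_insert (by decide), Finset.sum_insert (by decide), Finset.sum_insert (by decide), Finset.sum_singleton, Finset.sum_insert (by decide), Finset.sum_insert (by decide), Finset.sum_insert (by decide), Finset.sum_singleton] at h0
    rw [show P0 (4, 10) = 2 by decide] at h0
    rw [show P0 (6, 8) = 0 by decide] at h0
    rw [show P0 (9, 5) = 0 by decide] at h0
    rw [show P0 (11, 3) = 2 by decide] at h0
    rw [if_neg (show ¬ (((4, 10) : ZMod 12 × ZMod 12) = (9, 10)) by decide)] at h0
    rw [if_neg (show ¬ (((6, 8) : ZMod 12 × ZMod 12) = (9, 10)) by decide)] at h0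
    rw [if_neg (show ¬ (((9, 5) : ZMod 12 × ZMod 12) = (9, 10)) by decide)] at h0
    rw [if_neg (show ¬ (((11, 3) : ZMod 12 × ZMod 12) = (9, 10)) by decide)] at h0
    omega
  have e2_11 : m (1, 0) + m (4, 9) + m (10, 3) = 2 := by
    have h0 := key 2 11
    rw [show H.filter (fun p => w 2 p = 11) = {(1, 0), (4, 9), (10, 3)} by decide +kernel] at h0
    rw [Finset.sum_insert (by decide), Finset.sum_insert (by decide), Finset.sum_singleton, Finset.sum_insert (by decide), Finset.sum_insert (by decide), Finset.sum_singleton] at h0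
    rw [show P0 (1, 0) = 2 by decide] at h0
    rw [show P0 (4, 9) = 0 by decide] at h0
    rw [show P0 (10, 3) = 0 by decide] at h0
    rw [if_neg (show ¬ (((1, 0) : ZMod 12 × ZMod 12) = (9, 10)) by decide)] at h0
    rw [if_neg (show ¬ (((4, 9) : ZMod 12 × ZMod 12) = (9, 10)) by decide)] at h0
    rw [if_neg (show ¬ (((10, 3) : ZMod 12 × ZMod 12) = (9, 10)) by decide)] at h0
    omega
  have hc : m (10, 9) = 0 ∨ m (10, 9) = 1 := by omega
  have key2 : (m (0, 5) = 0 ∧ m (0, 11) = 1 ∧ m (1, 0) = 2 ∧ m (1, 10) = 0 ∧ m (4, 3) = 0 ∧ m (4, 9) = 0 ∧ m (4, 10) = 2 ∧ m (6, 5) = 3 ∧ m (6, 8) = 0 ∧ m (6, 11) = 0 ∧ m (9, 5) = 0 ∧ m (9, 8) = 2 ∧ m (9, 10) = 0 + K ∧ m (10, 3) = 0 ∧ m (10, 9) = 1 ∧ m (11, 0) = 0 ∧ m (11, 3) = 2 ∧ m (11, 8) = 0) ∨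
      (m (0, 5) = 1 ∧ m (0, 11) = 0 ∧ m (1, 0) = 0 ∧ m (1, 10) = 2 ∧ m (4, 3) = 1 ∧ m (4, 9) = 1 ∧ m (4, 10) = 0 ∧ m (6, 5) = 0 ∧ m (6, 8) = 2 ∧ m (6, 11) = 1 ∧ m (9, 5) = 2 ∧ m (9, 8) = 0 ∧ m (9, 10) = 0 + K ∧ m (10, 3) = 1 ∧ m (10, 9) = 0 ∧ m (11, 0) = 2 ∧ m (11, 3) = 0 ∧ m (11, 8) = 0) := by
    clear key hP hm h
    rcases hc with hc | hc
    · right
      refine ⟨?_, ?_, ?_, ?_, ?_, ?_, ?_, ?_, ?_, ?_, ?_, ?_, ?_, ?_, ?_, ?_, ?_, ?_⟩ <;> omega
    · left
      refine ⟨?_, ?_, ?_, ?_, ?_, ?_, ?_, ?_, ?_, ?_, ?_, ?_, ?_, ?_, ?_, ?_, ?_, ?_⟩ <;> omega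
  rcases key2 with key2 | key2
  · left
    obtain ⟨a0, a1, a2, a3, a4, a5, a6, a7, a8, a9, a10, a11, a12, a13, a14, a15, a16, a17⟩ := key2
    intro p
    by_cases hp : p ∈ H
    · simp only [H, Finset.mem_insert, Finset.mem_singleton] at hp
      rcases hp with rfl | rfl | rfl | rfl | rfl | rfl | rfl | rfl | rfl | rfl | rfl | rfl | rfl | rfl | rfl | rfl | rfl | rfl
      · rw [a0, show P0 (0, 5) = 0 by decide, if_neg (by decide)]
      · rw [a1, show P0 (0, 11) = 1 by decide, if_neg (by decide)]
      · rw [a2, show P0 (1, 0) = 2 by decide, if_neg (by decide)]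
      · rw [a3, show P0 (1, 10) = 0 by decide, if_neg (by decide)]
      · rw [a4, show P0 (4, 3) = 0 by decide, if_neg (by decide)]
      · rw [a5, show P0 (4, 9) = 0 by decide, if_neg (by decide)]
      · rw [a6, show P0 (4, 10) = 2 by decide, if_neg (by decide)]
      · rw [a7, show P0 (6, 5) = 3 by decide, if_neg (by decide)]
      · rw [a8, show P0 (6, 8) = 0 by decide, if_neg (by decide)]
      · rw [a9, show P0 (6, 11) = 0 by decide, if_neg (by decide)]
      · rw [a10, show P0 (9, 5) = 0 by decide, if_neg (by decide)]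
      · rw [a11, show P0 (9, 8) = 2 by decide, if_neg (by decide)]
      · rw [a12, show P0 (9, 10) = 0 by decide, if_pos rfl]
      · rw [a13, show P0 (10, 3) = 0 by decide, if_neg (by decide)]
      · rw [a14, show P0 (10, 9) = 1 by decide, if_neg (by decide)]
      · rw [a15, show P0 (11, 0) = 0 by decide, if_neg (by decide)]
      · rw [a16, show P0 (11, 3) = 2 by decide, if_neg (by decide)]
      · rw [a17, show P0 (11, 8) = 0 by decide, if_neg (by decide)]
    · rw [hm p hp, if_neg (hP p hp).2.2, (hP p hp).1]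
  · right
    obtain ⟨a0, a1, a2, a3, a4, a5, a6, a7, a8, a9, a10, a11, a12, a13, a14, a15, a16, a17⟩ := key2
    intro p
    by_cases hp : p ∈ H
    · simp only [H, Finset.mem_insert, Finset.mem_singleton] at hp
      rcases hp with rfl | rfl | rfl | rfl | rfl | rfl | rfl | rfl | rfl | rfl | rfl | rfl | rfl | rfl | rfl | rfl | rfl | rfl
      · rw [a0, show Q0 (0, 5) = 1 by decide, if_neg (by decide)]
      · rw [a1, show Q0 (0, 11) = 0 by decide, if_neg (by decide)]
      · rw [a2, show Q0 (1, 0) = 0 by decide, if_neg (by decide)]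
      · rw [a3, show Q0 (1, 10) = 2 by decide, if_neg (by decide)]
      · rw [a4, show Q0 (4, 3) = 1 by decide, if_neg (by decide)]
      · rw [a5, show Q0 (4, 9) = 1 by decide, if_neg (by decide)]
      · rw [a6, show Q0 (4, 10) = 0 by decide, if_neg (by decide)]
      · rw [a7, show Q0 (6, 5) = 0 by decide, if_neg (by decide)]
      · rw [a8, show Q0 (6, 8) = 2 by decide, if_neg (by decide)]
      · rw [a9, show Q0 (6, 11) = 1 by decide, if_neg (by decide)]
      · rw [a10, show Q0 (9, 5) = 2 by decide, if_neg (by decide)]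
      · rw [a11, show Q0 (9, 8) = 0 by decide, if_neg (by decide)]
      · rw [a12, show Q0 (9, 10) = 0 by decide, if_pos rfl]
      · rw [a13, show Q0 (10, 3) = 1 by decide, if_neg (by decide)]
      · rw [a14, show Q0 (10, 9) = 0 by decide, if_neg (by decide)]
      · rw [a15, show Q0 (11, 0) = 2 by decide, if_neg (by decide)]
      · rw [a16, show Q0 (11, 3) = 0 by decide, if_neg (by decide)]
      · rw [a17, show Q0 (11, 8) = 0 by decide, if_neg (by decide)]
    · rw [hm p hp, if_neg (hP p hp).2.2, (hP p hp).2.1]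


/-! ## The claw -/

section Star

/-- The claw. -/
abbrev T4 : SimpleGraph (Fin 4) := SimpleGraph.starGraph (0 : Fin 4)

lemma adj_iff (v w : Fin 4) : T4.Adj v w ↔ v ≠ w ∧ (v = 0 ∨ w = 0) := by simp

lemma leaf_iff (v : Fin 4) : (∃! w, T4.Adj v w) ↔ v ≠ 0 := by
  simp only [adj_iff, ExistsUnique]
  revert v
  decide

/-- The three leaves. -/
def leafEquiv : Fin 3 ≃ Leaf T4 where
  toFun i := ⟨i.succ, (leaf_iff _).2 (Fin.succ_ne_zero i)⟩
  invFun ℓ := Fin.pred ℓ.1 ((leaf_iff _).1 ℓ.2)
  left_inv i := by simp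
  right_inv ℓ := by simp

lemma sum_leaf {G : Type} [AddCommGroup G] [Fintype (Leaf T4)] (g : Leaf T4 → G) :
    ∑ ℓ, g ℓ = g (leafEquiv 0) + g (leafEquiv 1) + g (leafEquiv 2) := by
  rw [← Equiv.sum_comp leafEquiv g, Fin.sum_univ_three]

lemma reach_leaf (i : Fin 3) (v : Fin 4) :
    (T4.deleteEdges {s(0, i.succ)}).Reachable i.succ v ↔ v = i.succ := by
  constructor
  · intro h
    by_contra hne
    revert h
    apply SimpleGraph.not_reachable_of_neighborSet_left_eq_empty (Ne.symm hne)
    ext x
    simp only [SimpleGraph.mem_neighborSet, SimpleGraph.deleteEdges_adj, Set.mem_empty_iff_false, iff_false,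
      adj_iff, Set.mem_singleton_iff]
    clear hne
    revert i x; decide
  · rintro rfl; exact SimpleGraph.Reachable.refl _

lemma reach_center (i : Fin 3) (v : Fin 4) :
    (T4.deleteEdges {s(0, i.succ)}).Reachable 0 v ↔ v ≠ i.succ := by
  constructor
  · rintro h rfl
    have := (reach_leaf i 0).1 h.symm
    exact absurd this (Fin.succ_ne_zero i).symm
  · intro h
    by_cases hv : v = 0
    · subst hv; exact SimpleGraph.Reachable.refl _
    · apply SimpleGraph.Adj.reachable
      simp only [SimpleGraph.deleteEdges_adj, adj_iff, Set.mem_singleton_iff]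
      revert h hv; revert i v; decide

lemma edge_iff (e : Sym2 (Fin 4)) : e ∈ T4.edgeSet ↔ ∃ i : Fin 3, e = s(0, i.succ) := by
  induction e with
  | h x y =>
    rw [SimpleGraph.mem_edgeSet, adj_iff]
    revert x y; decide

/-- The edge at the leaf `i + 1`. -/
def ed (i : Fin 3) : T4.edgeSet := ⟨s(0, i.succ), (edge_iff _).2 ⟨i, rfl⟩⟩

lemma edgeSum_leaf {G : Type} [AddCommGroup G] (i : Fin 3) (g : Leaf T4 → G) :
    edgeSum T4 s(0, i.succ) i.succ g = g (leafEquiv i) := by
  classical
  rw [edgeSum, Finset.sum_eq_single (leafEquiv i)]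
  · rw [if_pos]; rw [reach_leaf]; rfl
  · intro b _ hb
    rw [if_neg]
    rw [reach_leaf]
    intro h; exact hb (Subtype.ext h)
  · intro h; exact absurd (Finset.mem_univ _) h

lemma edgeSum_center {G : Type} [AddCommGroup G] (i : Fin 3) (g : Leaf T4 → G)
    (hg : g (leafEquiv 0) + g (leafEquiv 1) + g (leafEquiv 2) = 0) :
    edgeSum T4 s(0, i.succ) 0 g = - g (leafEquiv i) := by
  classical
  have h1 : edgeSum T4 s(0, i.succ) 0 g + edgeSum T4 s(0, i.succ) i.succ g = 0 := by
    rw [edgeSum, edgeSum, ← Finset.sum_add_distrib]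
    rw [← sum_leaf] at hg
    refine Eq.trans ?_ hg
    apply Finset.sum_congr rfl
    intro ℓ _
    simp only [reach_center, reach_leaf]
    by_cases h : ℓ.1 = i.succ <;> simp [h]
  rw [edgeSum_leaf] at h1
  exact eq_neg_of_add_eq_zero_left h1

/-- The coordinate given by a row. -/
def mk (p : ZMod 12 × ZMod 12) : Coord (ZMod 12) T4 :=
  ⟨fun ℓ => ![p.1, p.2, -(p.1 + p.2)] (leafEquiv.symm ℓ), by
    classical
    rw [sum_leaf]; simp⟩

/-- `mk` as an equivalence. -/
noncomputable def mkEquiv : ZMod 12 × ZMod 12 ≃ Coord (ZMod 12) T4 where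
  toFun := mk
  invFun g := (g.1 (leafEquiv 0), g.1 (leafEquiv 1))
  left_inv p := by simp [mk]
  right_inv g := by
    obtain ⟨g, hg⟩ := g
    apply Subtype.ext
    funext ℓ
    obtain ⟨i, rfl⟩ := leafEquiv.surjective ℓ
    have h2 := hg
    classical
    rw [sum_leaf] at h2
    fin_cases i
    · simp [mk]
    · simp [mk]
    · have h3 : g (leafEquiv 2) = -(g (leafEquiv 0) + g (leafEquiv 1)) :=
        eq_neg_of_add_eq_zero_right h2
      simp only [mk, Equiv.symm_apply_apply]
      rw [← h3]
      rfl



lemma cont_apply {ι E G : Type} [Fintype E] [Fintype ι] [DecidableEq G] (s : E → ι → G)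
    (M : ι →₀ ℕ) (e : E) (x : G) :
    cont s M (e, x) = ∑ i, if s e i = x then M i else 0 := by
  classical
  simp only [cont, Finsupp.liftAddHom_apply]
  rw [Finsupp.sum_fintype _ _ (by intro i; simp)]
  rw [Finsupp.finsetSum_apply]
  apply Finset.sum_congr rfl
  intro i _
  simp only [multiplesHom_apply, Finsupp.smul_apply, Finsupp.finsetSum_apply, smul_eq_mul,
    Finsupp.single_apply, Prod.mk.injEq]
  rw [Finset.sum_eq_single e]
  · by_cases h : s e i = x <;> simp [h]
  · intro b _ hb; simp [hb]
  · intro h; exact absurd (Finset.mem_univ _) h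

lemma w_eq (k : Fin 3) (p : ZMod 12 × ZMod 12) : (mk p).1 (leafEquiv k) = w k p := by
  fin_cases k <;> simp [mk, w]

noncomputable instance : Fintype (Coord (ZMod 12) T4) := Fintype.ofEquiv _ mkEquiv

lemma side_cases (side : T4.edgeSet → Fin 4) (hside : ∀ e : T4.edgeSet, side e ∈ (e : Sym2 (Fin 4))) (k : Fin 3) :
    (∀ p, edgeSum T4 (ed k) (side (ed k)) (mk p).1 = w k p) ∨
    (∀ p, edgeSum T4 (ed k) (side (ed k)) (mk p).1 = - w k p) := by
  have h := hside (ed k)
  simp only [ed, Sym2.mem_iff] at h
  rcases h with h | h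
  · right
    intro p
    simp only [ed] at h ⊢
    rw [h, edgeSum_center, w_eq]
    have := (mk p).2
    classical
    rw [sum_leaf] at this
    exact this
  · left
    intro p
    simp only [ed] at h ⊢
    rw [h, edgeSum_leaf, w_eq]

lemma cont_sum (s : T4.edgeSet → Coord (ZMod 12) T4 → ZMod 12) (k : Fin 3)
    [Fintype T4.edgeSet]
    (hs : (∀ p, s (ed k) (mk p) = w k p) ∨ (∀ p, s (ed k) (mk p) = - w k p)) (c : ZMod 12) :
    ∃ x : ZMod 12, ∀ M : Coord (ZMod 12) T4 →₀ ℕ,
      cont s M (ed k, x) = ∑ p, if w k p = c then M (mk p) else 0 := by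
  rcases hs with hs | hs
  · refine ⟨c, fun M => ?_⟩
    rw [cont_apply, ← Equiv.sum_comp mkEquiv]
    apply Finset.sum_congr rfl
    intro p _
    change (if s (ed k) (mk p) = c then M (mk p) else 0) = _
    rw [hs]
  · refine ⟨-c, fun M => ?_⟩
    rw [cont_apply, ← Equiv.sum_comp mkEquiv]
    apply Finset.sum_congr rfl
    intro p _
    change (if s (ed k) (mk p) = -c then M (mk p) else 0) = _
    rw [hs]
    simp only [neg_inj]

/-- The first monomial. -/
noncomputable def PP : Coord (ZMod 12) T4 →₀ ℕ := Finsupp.equivFunOnFinite.symm fun g => P0 (mkEquiv.symm g)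
/-- The second monomial. -/
noncomputable def QQ : Coord (ZMod 12) T4 →₀ ℕ := Finsupp.equivFunOnFinite.symm fun g => Q0 (mkEquiv.symm g)

lemma PP_mk (p) : PP (mk p) = P0 p := by
  have : mkEquiv.symm (mk p) = p := mkEquiv.symm_apply_apply p
  simp [PP, this]

lemma QQ_mk (p) : QQ (mk p) = Q0 p := by
  have : mkEquiv.symm (mk p) = p := mkEquiv.symm_apply_apply p
  simp [QQ, this]

lemma mk_inj {p q} (h : mk p = mk q) : p = q := mkEquiv.injective h

lemma single_mk (K : ℕ) (p) : Finsupp.single (mk (9, 10)) K (mk p) = if p = (9, 10) then K else 0 := by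
  classical
  rw [Finsupp.single_apply]
  by_cases h : p = (9, 10)
  · subst h; simp
  · rw [if_neg h, if_neg]
    intro h2; exact h (mk_inj h2).symm

lemma sums_eq : ∀ k c, (∑ p, if w k p = c then P0 p else 0) = ∑ p, if w k p = c then Q0 p else 0 := by
  decide +kernel

lemma degPP : PP.degree = 13 := by
  rw [Finsupp.degree_eq_sum, ← Equiv.sum_comp mkEquiv]
  change ∑ p, PP (mk p) = 13
  simp only [PP_mk]
  decide +kernel

/-- **Negative answer to Q1.**  For `G = ℤ/12` and the claw `T = K_{1,3}` (the star with centre `0`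
on four vertices), whatever parts `L_e` are chosen, and for every `d ≤ |G|` (in particular
`d = |G| = 12`), the saturation of `I(X(G,T))_⟨d⟩` is strictly smaller than `I(X(G,T))`. -/
theorem result :
    (SimpleGraph.starGraph (0 : Fin 4)).IsTree ∧
    ∀ side : (SimpleGraph.starGraph (0 : Fin 4)).edgeSet → Fin 4,
      (∀ e : (SimpleGraph.starGraph (0 : Fin 4)).edgeSet, side e ∈ (e : Sym2 (Fin 4))) →
      ∀ d ≤ Fintype.card (ZMod 12),
        saturation (genIdeal (modelIdeal (ZMod 12) (SimpleGraph.starGraph 0) side) d) <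
          modelIdeal (ZMod 12) (SimpleGraph.starGraph 0) side := by
  refine ⟨SimpleGraph.isTree_starGraph _, ?_⟩
  intro side hside d hd
  classical
  have hs := side_cases side hside
  set s : T4.edgeSet → Coord (ZMod 12) T4 → ZMod 12 := fun e g => edgeSum T4 e (side e) g.1 with hsdef
  have hpt : modelIdeal (ZMod 12) T4 side = homVanIdeal (Set.range (pt s)) := by
    rw [modelIdeal]
    congr 2
    funext a g
    simp only [paramPoint, pt, hsdef]
    exact Finset.prod_congr (by ext e; simp only [Finset.mem_univ]) (fun _ _ => rfl)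
  rw [hpt]
  have : Nonempty T4.edgeSet := ⟨ed 0⟩
  have hsums : ∀ M M' : Coord (ZMod 12) T4 →₀ ℕ, cont s M = cont s M' →
      ∀ k c, (∑ p, if w k p = c then M (mk p) else 0) = ∑ p, if w k p = c then M' (mk p) else 0 := by
    intro M M' h k c
    obtain ⟨x, hx⟩ := cont_sum s k (hs k) c
    rw [← hx, ← hx, h]
  apply abstract_core s PP QQ (mk (9, 10)) d
  · ext ⟨e, x⟩
    obtain ⟨k, hk⟩ := (edge_iff e.1).1 e.2
    have he : e = ed k := Subtype.ext hk
    subst he
    rcases hs k with h | h
    · obtain ⟨x', hx⟩ := cont_sum s k (hs k) x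
      rw [cont_apply, cont_apply, ← Equiv.sum_comp mkEquiv, ← Equiv.sum_comp mkEquiv]
      change (∑ p, if s (ed k) (mk p) = x then PP (mk p) else 0) =
        (∑ p, if s (ed k) (mk p) = x then QQ (mk p) else 0)
      have h' : ∀ p, s (ed k) (mk p) = w k p := h
      simp only [h', PP_mk, QQ_mk]
      exact sums_eq k x
    · rw [cont_apply, cont_apply, ← Equiv.sum_comp mkEquiv, ← Equiv.sum_comp mkEquiv]
      change (∑ p, if s (ed k) (mk p) = x then PP (mk p) else 0) =
        (∑ p, if s (ed k) (mk p) = x then QQ (mk p) else 0)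
      have h' : ∀ p, s (ed k) (mk p) = - w k p := h
      simp only [h', PP_mk, QQ_mk, neg_eq_iff_eq_neg]
      exact sums_eq k (-x)
  · rw [degPP]
    rw [ZMod.card] at hd
    omega
  · intro g
    obtain ⟨p, rfl⟩ := mkEquiv.surjective g
    change PP (mk p) = 0 ∨ QQ (mk p) = 0
    rw [PP_mk, QQ_mk]
    revert p
    decide +kernel
  · intro K M hM
    have h1 := hsums _ _ hM
    have h2 := fiber_core (fun p => M (mk p)) K (by
      intro k c
      rw [h1 k c]
      apply Finset.sum_congr rfl
      intro p _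
      rw [Finsupp.add_apply, PP_mk, single_mk])
    rcases h2 with h2 | h2
    · left
      ext g
      obtain ⟨p, rfl⟩ := mkEquiv.surjective g
      change M (mk p) = (PP + Finsupp.single (mk (9, 10)) K) (mk p)
      rw [h2 p, Finsupp.add_apply, PP_mk, single_mk]
    · right
      ext g
      obtain ⟨p, rfl⟩ := mkEquiv.surjective g
      change M (mk p) = (QQ + Finsupp.single (mk (9, 10)) K) (mk p)
      rw [h2 p, Finsupp.add_apply, QQ_mk, single_mk]

end Star

end Pool.Agent.Results.MP_0eda79_ag.ClawZ12
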